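import Pool.Agent.Run7.h787.ST.Iface2
import Pool.Agent.Run7.h547.ST.LREL

/-!
# Stark's conjecture, project ST of helper787: piece LREL0

Adapted from `Pool/Agent/Run7/h547/ST/LREL.lean` (helper547).
-/

set_option autoImplicit false

open NumberField IsDedekindDomain

noncomputable section

namespace Run7.h462.ST

open Pool.Agent.Run7.h787.ST Pool.Agent.Run7.h547.ST

theorem euler_rel0 (hU : S_UNIQ) (K : Type) [Field K] [NumberField K] [Algebra K ℝ]
    (H H' : IntermediateField K ℝ) (hle : H ≤ H') (S : Finset (HeightOneSpectrum (𝓞 K)))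
    (D : LData H S) (D' : LData H' S) (r : Gal H' →* Gal H) (hr : IsRes r)
    (hun : ∀ p, p ∉ S → Unram H p) (χ : Gal H →* ℂˣ) (s : ℂ) (hs : 1 < s.re) :
    D'.L (χ.comp r) s = D.L χ s := by
  have h1 := D'.euler (χ.comp r) s hs
  have h2 := D.euler χ s hs
  have e : (fun p : {p : HeightOneSpectrum (𝓞 K) // p ∉ S} =>
      (1 - ((χ.comp r) (D'.frob p) : ℂ) *
        (Ideal.absNorm (p : HeightOneSpectrum (𝓞 K)).asIdeal : ℂ) ^ (-s))⁻¹) =
      fun p : {p : HeightOneSpectrum (𝓞 K) // p ∉ S} =>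
        (1 - (χ (D.frob p) : ℂ) *
        (Ideal.absNorm (p : HeightOneSpectrum (𝓞 K)).asIdeal : ℂ) ^ (-s))⁻¹ := by
    funext x
    obtain ⟨p, hp⟩ := x
    have := frob_res hU H H' hle p r hr (D.frob p) (D'.frob p) (hun p hp) (D.isFrob p hp)
      (D'.isFrob p hp)
    simp only [MonoidHom.comp_apply, this]
  rw [e] at h1
  exact h1.unique h2

theorem t_LREL0 : S_UNIQ → S_LREL0 := by
  intro hU K _ _ _ H H' hle S D D' r hr _ hun χ
  have ho : IsOpen ({1}ᶜ : Set ℂ) := isOpen_compl_singleton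
  have aF : AnalyticOnNhd ℂ (D'.L (χ.comp r)) {1}ᶜ := (D'.analytic (χ.comp r)).analyticOnNhd ho
  have aG : AnalyticOnNhd ℂ (D.L χ) {1}ᶜ := (D.analytic χ).analyticOnNhd ho
  have hpre : IsPreconnected ({1}ᶜ : Set ℂ) := by
    apply (isConnected_compl_singleton_of_one_lt_rank _ _).isPreconnected
    rw [Complex.rank_real_complex]
    exact Cardinal.one_lt_two
  have hev : D'.L (χ.comp r) =ᶠ[nhds (2 : ℂ)] D.L χ := by
    have : {s : ℂ | 1 < s.re} ∈ nhds (2 : ℂ) :=
      (isOpen_lt continuous_const Complex.continuous_re).mem_nhds (by norm_num)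
    filter_upwards [this] with s hs
    exact euler_rel0 hU K H H' hle S D D' r hr hun χ s hs
  have heq := aF.eqOn_of_preconnected_of_eventuallyEq aG hpre
    (by norm_num : (2 : ℂ) ∈ ({1}ᶜ : Set ℂ)) hev
  have h00 : ({1}ᶜ : Set ℂ) ∈ nhds (0 : ℂ) := ho.mem_nhds (by norm_num)
  have hev0 : D'.L (χ.comp r) =ᶠ[nhds (0 : ℂ)] D.L χ := by
    filter_upwards [h00] with s hs
    exact heq hs
  exact hev0.deriv_eq

end Run7.h462.ST
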